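import Pool.Agent.Work.MP_1aab6d_co_h84.Gadget

/-!
# Frozen sets
-/

set_option autoImplicit false

namespace UnfD

open Finset Classical UnfT

variable {V : Type*} {G : SimpleGraph V}

variable (G) in
/-- Each vertex of `A` has finite degree, and at least half of its neighbours are in `A` or have
infinite degree and have the other colour. -/
def Fz (A : Set V) (ρ : V → Bool) : Prop :=
  ∀ a ∈ A, ¬ Inf G a ∧
    (G.neighborSet a).ncard ≤ 2 * {b | G.Adj a b ∧ (Inf G b ∨ b ∈ A) ∧ ρ b ≠ ρ a}.ncard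

/-- Stable extension, finite version. -/
lemma ext_fin (C : Finset V) (hC : ∀ v ∈ C, ¬ Inf G v) (z : V → Bool) :
    ∃ s : V → Bool, (∀ v, v ∉ C → s v = z v) ∧ ∀ v ∈ C, Stab G s v := by
  let J : V → V → ℤ := fun a b => if G.Adj a b then 1 else 0
  let h : V → ℤ := fun v => ∑ b ∈ nb G v \ C, sg (z b)
  obtain ⟨s, hs, hmin⟩ := exists_HH_min C J h z
  refine ⟨s, hs, fun v hv => stab_of_sum (hC v hv) ?_⟩
  have h1 := HH_min_le (J := J) (h := h) (fun a _ b _ => by simp only [J, G.adj_comm a b])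
    (fun a => by simp [J]) hmin hv
  have e : ∑ y ∈ nb G v, sg (s y) = ∑ a ∈ C, J v a * sg (s a) + h v := by
    have e1 : ∑ a ∈ C, J v a * sg (s a) = ∑ y ∈ nb G v ∩ C, sg (s y) := by
      have : ∀ a ∈ C, J v a * sg (s a) = if G.Adj v a then sg (s a) else 0 := by
        intro a _
        by_cases ha : G.Adj v a
        · simp [J, ha]
        · simp [J, ha]
      rw [Finset.sum_congr rfl this, ← Finset.sum_filter]
      congr 1
      ext y
      simp only [mem_inter, mem_filter, mem_nb G (hC v hv)]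
      tauto
    have e2 : h v = ∑ y ∈ nb G v \ C, sg (s y) := by
      refine Finset.sum_congr rfl fun b hb => ?_
      rw [hs b (mem_sdiff.1 hb).2]
    rw [e1, e2, ← Finset.sum_union]
    · congr 1
      ext y
      simp only [mem_union, mem_inter, mem_sdiff]
      tauto
    · rw [Finset.disjoint_left]
      intro y hy hy'
      simp only [mem_sdiff, mem_inter] at hy hy'
      exact hy'.2 hy.2
  rw [e]; exact h1

/-- Stable extension. -/
lemma ext_stab (R : Set V) (hR : ∀ v, Inf G v → v ∈ R) (z : V → Bool) :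
    ∃ s : V → Bool, (∀ v ∈ R, s v = z v) ∧ ∀ v, v ∉ R → Stab G s v := by
  let K : V → Set (V → Bool) := fun v => {c | (∀ w ∈ R, c w = z w) ∧ (v ∉ R → Stab G c v)}
  have c1 : IsClosed {c : V → Bool | ∀ v ∈ R, c v = z v} := by
    have : {c : V → Bool | ∀ v ∈ R, c v = z v} = ⋂ v ∈ R, {c | c v = z v} := by
      ext c; simp
    rw [this]
    exact isClosed_biInter fun v _ => isClosed_eq (continuous_apply v) continuous_const
  have hK : ∀ v, IsClosed (K v) := by
    intro v
    by_cases hv : v ∈ R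
    · have : K v = {c : V → Bool | ∀ v ∈ R, c v = z v} := by
        ext c
        exact ⟨fun h => h.1, fun h => ⟨h, fun h' => absurd hv h'⟩⟩
      rw [this]; exact c1
    · have hvI : ¬ Inf G v := fun h => hv (hR v h)
      have : K v = {c : V → Bool | ∀ v ∈ R, c v = z v} ∩
          {c | 0 ≤ en G (eps Set.univ c) {v}} := by
        ext c
        refine ⟨fun h => ⟨h.1, (stab_iff c hvI).1 (h.2 hv)⟩,
          fun h => ⟨h.1, fun _ => (stab_iff c hvI).2 h.2⟩⟩
      rw [this]
      exact c1.inter (isClosed_le continuous_const (continuous_en {v}))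
  have hne : ∀ t : Finset V, (Set.univ ∩ ⋂ v ∈ t, K v).Nonempty := by
    intro t
    obtain ⟨s, hs1, hs2⟩ := ext_fin (G := G) (t.filter (· ∉ R))
      (fun v hv hI => (mem_filter.1 hv).2 (hR v hI)) z
    refine ⟨s, Set.mem_univ _, ?_⟩
    simp only [Set.mem_iInter]
    intro v hv
    refine ⟨fun w hw => hs1 w fun h => (mem_filter.1 h).2 hw, fun hvR => ?_⟩
    exact hs2 v (mem_filter.2 ⟨hv, hvR⟩)
  obtain ⟨c, -, hc⟩ := isCompact_univ.inter_iInter_nonempty K hK hne
  rw [Set.mem_iInter] at hc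
  rcases isEmpty_or_nonempty V with hV | ⟨⟨v0⟩⟩
  · exact ⟨z, fun _ _ => rfl, fun v => (hV.false v).elim⟩
  · exact ⟨c, (hc v0).1, fun v hv => (hc v).2 hv⟩

/-- The number of the neighbours splits. -/
lemma ncard_split {s : V → Bool} {v : V} (hv : ¬ Inf G v) :
    {w | G.Adj v w ∧ s w = s v}.ncard + {w | G.Adj v w ∧ s w ≠ s v}.ncard
      = (G.neighborSet v).ncard := by
  have hf : (G.neighborSet v).Finite := Set.not_infinite.1 hv
  rw [← Set.ncard_union_eq _ (hf.subset fun w hw => hw.1) (hf.subset fun w hw => hw.1)]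
  · congr 1
    ext w
    simp only [Set.mem_union, Set.mem_ofPred_eq, SimpleGraph.mem_neighborSet]
    tauto
  · rw [Set.disjoint_left]
    rintro w ⟨-, h1⟩ ⟨-, h2⟩
    exact h2 h1

/-- Stability in terms of the degree. -/
lemma stab_iff_deg {s : V → Bool} {v : V} (hv : ¬ Inf G v) :
    Stab G s v ↔ (G.neighborSet v).ncard ≤ 2 * {w | G.Adj v w ∧ s w ≠ s v}.ncard := by
  have := ncard_split (s := s) hv
  unfold Stab
  omega

/-- Frozen sets give unfriendly partitions. -/
theorem unfriendly_of_fz [Countable V] {A : Set V} {ρ : V → Bool} (hA : Fz G A ρ)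
    (hI : ∀ u, Inf G u → {y | G.Adj u y ∧ (Inf G y ∨ y ∈ A) ∧ ρ y ≠ ρ u}.Infinite) :
    ∃ c : V → Bool, Unfriendly G c := by
  obtain ⟨c, hc1, hc2⟩ := ext_stab (G := G) {v | Inf G v ∨ v ∈ A} (fun v hv => Or.inl hv) ρ
  refine ⟨c, unfriendly_of_stab (fun v hv => ?_) fun u hu => ?_⟩
  · by_cases hvA : v ∈ A
    · rw [stab_iff_deg hv]
      refine (hA v hvA).2.trans (Nat.mul_le_mul_left 2 ?_)
      refine Set.ncard_le_ncard ?_ ((Set.not_infinite.1 hv).subset fun w hw => hw.1)
      rintro b ⟨h1, h2, h3⟩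
      exact ⟨h1, by rw [hc1 b h2, hc1 v (Or.inr hvA)]; exact h3⟩
    · exact hc2 v fun h => h.elim hv hvA
  · refine (hI u hu).mono ?_
    rintro y ⟨h1, h2, h3⟩
    exact ⟨h1, by rw [hc1 y h2, hc1 u (Or.inl hu)]; exact h3⟩

/-- A set all of whose vertices have degree at most four is frozen if each of its vertices has two
suitable neighbours. -/
lemma fz_of_two {A : Set V} {ρ : V → Bool} (hA : ∀ a ∈ A, (G.neighborSet a).encard ≤ 4)
    (h2 : ∀ a ∈ A, ∃ b b', b ≠ b' ∧ G.Adj a b ∧ G.Adj a b' ∧ (Inf G b ∨ b ∈ A) ∧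
      (Inf G b' ∨ b' ∈ A) ∧ ρ b ≠ ρ a ∧ ρ b' ≠ ρ a) : Fz G A ρ := by
  intro a ha
  have hfe : (G.neighborSet a).Finite := Set.finite_of_encard_le_coe (hA a ha)
  refine ⟨Set.not_infinite.2 hfe, ?_⟩
  obtain ⟨b, b', h1, h2, h3, h4, h5, h6, h7⟩ := h2 a ha
  have e1 : ({b, b'} : Set V).ncard = 2 := Set.ncard_pair h1
  have e2 : ({b, b'} : Set V).ncard ≤ {b | G.Adj a b ∧ (Inf G b ∨ b ∈ A) ∧ ρ b ≠ ρ a}.ncard := by
    refine Set.ncard_le_ncard ?_ (hfe.subset fun w hw => hw.1)
    rintro w (rfl | rfl)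
    · exact ⟨h2, h4, h6⟩
    · exact ⟨h3, h5, h7⟩
  have e3 : (G.neighborSet a).ncard ≤ 4 := by
    have := hA a ha
    rw [← hfe.cast_ncard_eq] at this
    exact_mod_cast this
  omega

end UnfD
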