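import Pool.Agent.Work.MP_1aab6d_deg4_helper61.Frz

/-!
# Geodesics
-/

set_option autoImplicit false

namespace UnfD

open Classical UnfT

variable {V : Type*} {H : SimpleGraph V}

lemma dist_succ {r a b : V} (ha : H.Reachable r a) (hab : H.Adj a b) :
    H.dist r b ≤ H.dist r a + 1 := by
  obtain ⟨p, hp⟩ := ha.exists_walk_length_eq_dist
  have := SimpleGraph.dist_le (p.append (SimpleGraph.Walk.cons hab SimpleGraph.Walk.nil))
  rw [SimpleGraph.Walk.length_append, hp] at this
  simpa using this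

lemma parent {r v : V} (h : H.Reachable r v) (hne : v ≠ r) :
    ∃ v', H.Adj v' v ∧ H.Reachable r v' ∧ H.dist r v = H.dist r v' + 1 := by
  obtain ⟨p, hp⟩ := h.symm.exists_walk_length_eq_dist
  cases p with
  | nil => exact absurd rfl hne
  | @cons _ v' _ hadj q =>
    have h1 : H.Reachable r v' := q.reachable.symm
    have h2 := SimpleGraph.dist_le q
    have h3 := dist_succ h1 hadj.symm
    rw [SimpleGraph.Walk.length_cons, SimpleGraph.dist_comm] at hp
    rw [SimpleGraph.dist_comm] at h2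
    exact ⟨v', hadj.symm, h1, by omega⟩

lemma geodesic {r : V} (n : ℕ) : ∀ v, H.Reachable r v → H.dist r v = n → ∃ f : ℕ → V, f 0 = r ∧
    f n = v ∧ (∀ i, i < n → H.Adj (f i) (f (i + 1))) ∧
    ∀ i, i ≤ n → H.Reachable r (f i) ∧ H.dist r (f i) = i := by
  induction n with
  | zero =>
    intro v hv hd
    have e : r = v := (SimpleGraph.Reachable.dist_eq_zero_iff hv).1 hd
    refine ⟨fun _ => r, rfl, e, fun i hi => absurd hi (Nat.not_lt_zero i), fun i hi => ?_⟩
    obtain rfl : i = 0 := by omega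
    exact ⟨SimpleGraph.Reachable.refl r, SimpleGraph.dist_self⟩
  | succ n ih =>
    intro v hv hd
    have hne : v ≠ r := by
      rintro rfl
      rw [SimpleGraph.dist_self] at hd
      omega
    obtain ⟨v', h1, h2, h3⟩ := parent hv hne
    obtain ⟨f, f1, f2, f3, f4⟩ := ih v' h2 (by omega)
    refine ⟨fun i => if i ≤ n then f i else v, ?_, ?_, ?_, ?_⟩
    · show (if 0 ≤ n then f 0 else v) = r
      rw [if_pos (Nat.zero_le n), f1]
    · show (if n + 1 ≤ n then f (n + 1) else v) = v
      rw [if_neg (by omega)]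
    · intro i hi
      show H.Adj (if i ≤ n then f i else v) (if i + 1 ≤ n then f (i + 1) else v)
      rw [if_pos (by omega : i ≤ n)]
      by_cases h : i + 1 ≤ n
      · rw [if_pos h]; exact f3 i (by omega)
      · rw [if_neg h]
        have : i = n := by omega
        rw [this, f2]; exact h1
    · intro i hi
      show H.Reachable r (if i ≤ n then f i else v) ∧ H.dist r (if i ≤ n then f i else v) = i
      by_cases h : i ≤ n
      · rw [if_pos h]; exact f4 i h
      · rw [if_neg h]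
        exact ⟨hv, by omega⟩

/-- Parity of the distance. -/
noncomputable def par (H : SimpleGraph V) (r x : V) : Bool := decide (Odd (H.dist r x))

lemma par_succ {r a b : V} (h : H.dist r b = H.dist r a + 1) : par H r b = !(par H r a) := by
  unfold par
  rw [h]
  by_cases h' : Odd (H.dist r a)
  · have : ¬ Odd (H.dist r a + 1) := by rw [Nat.odd_add_one]; exact fun h => h h'
    simp [h', this]
  · have : Odd (H.dist r a + 1) := by rw [Nat.odd_add_one]; exact h'
    simp [h', this]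

lemma par_self (r : V) : par H r r = false := by
  unfold par
  rw [SimpleGraph.dist_self]; simp

/-- In a bipartite graph the parity of the distance is given by the colours. -/
lemma par_of_col {col : V → Bool} (hc : ∀ a b, H.Adj a b → col a ≠ col b) {r : V} (n : ℕ) :
    ∀ v, H.Reachable r v → H.dist r v = n → col v = xor (col r) (par H r v) := by
  induction n with
  | zero =>
    intro v hv hd
    have e : r = v := (SimpleGraph.Reachable.dist_eq_zero_iff hv).1 hd
    rw [← e, par_self]; simp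
  | succ n ih =>
    intro v hv hd
    have hne : v ≠ r := by
      rintro rfl
      rw [SimpleGraph.dist_self] at hd
      omega
    obtain ⟨v', h1, h2, h3⟩ := parent hv hne
    have h4 := ih v' h2 (by omega)
    have h5 := hc v' v h1
    rw [par_succ h3]
    revert h4 h5
    cases col v' <;> cases col v <;> cases col r <;> cases par H r v' <;> simp

/-- The subgraph of the edges whose ends have distances of different parity. -/
def bp (H : SimpleGraph V) (r : V) : SimpleGraph V where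
  Adj a b := H.Adj a b ∧ par H r a ≠ par H r b
  symm := ⟨fun _ _ h => ⟨h.1.symm, h.2.symm⟩⟩
  loopless := ⟨fun _ h => h.2 rfl⟩

lemma bp_reach {r : V} (n : ℕ) : ∀ v, H.Reachable r v → H.dist r v = n →
    (bp H r).Reachable r v := by
  induction n with
  | zero =>
    intro v hv hd
    have e : r = v := (SimpleGraph.Reachable.dist_eq_zero_iff hv).1 hd
    rw [← e]
  | succ n ih =>
    intro v hv hd
    have hne : v ≠ r := by
      rintro rfl
      rw [SimpleGraph.dist_self] at hd
      omega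
    obtain ⟨v', h1, h2, h3⟩ := parent hv hne
    refine (ih v' h2 (by omega)).trans (SimpleGraph.Adj.reachable ⟨h1, ?_⟩)
    rw [par_succ h3]; simp

lemma bp_le (r : V) : bp H r ≤ H := fun _ _ h => h.1

/-! ### Pieces -/

variable {G : SimpleGraph V}

variable (G) in
/-- The degree is at most four. -/
def Low (v : V) : Prop := (G.neighborSet v).encard ≤ 4

lemma Low.not_inf {v : V} (h : Low G v) : ¬ Inf G v :=
  Set.not_infinite.2 (Set.finite_of_encard_le_coe h)

/-- The colouring by the parity of the distance. -/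
noncomputable def rho (G H : SimpleGraph V) (z : V → Bool) (u y x : V) : Bool :=
  if Inf G x then z x else xor (!(z u)) (par H y x)

lemma rho_inf {z : V → Bool} {u y x : V} (h : Inf G x) : rho G H z u y x = z x := if_pos h

lemma rho_low {z : V → Bool} {u y x : V} (h : Low G x) :
    rho G H z u y x = xor (!(z u)) (par H y x) := if_neg h.not_inf

lemma rho_succ {z : V → Bool} {u y a b : V} (ha : Low G a) (hb : Low G b)
    (h : H.dist y b = H.dist y a + 1) : rho G H z u y b = !(rho G H z u y a) := by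
  rw [rho_low ha, rho_low hb, par_succ h]
  cases z u <;> cases par H y a <;> rfl

/-- A path between two neighbours of vertices of infinite degree. -/
lemma path_piece (hHG : H ≤ G) {z : V → Bool} {u w y v : V}
    (hL : ∀ x, H.Reachable y x → Low G x) (hu : Inf G u) (hw : Inf G w) (huy : G.Adj u y)
    (hwv : G.Adj w v) (hr : H.Reachable y v) (hz : z w = xor (z u) (par H y v))
    (hne : u ≠ w ∨ y ≠ v) :
    ∃ (A : Set V) (ρ : V → Bool), A.Finite ∧ (∀ x ∈ A, H.Reachable y x) ∧ Fz G A ρ ∧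
      (∀ x, Inf G x → ρ x = z x) ∧ y ∈ A ∧ v ∈ A ∧ ρ y ≠ z u ∧ ρ v ≠ z w := by
  obtain ⟨f, f1, f2, f3, f4⟩ := geodesic _ v hr rfl
  set n := H.dist y v with hn
  have hLf : ∀ i, i ≤ n → Low G (f i) := fun i hi => hL _ (f4 i hi).1
  have hmem : ∀ i, i ≤ n → f i ∈ f '' {i | i ≤ n} := fun i hi => ⟨i, hi, rfl⟩
  have ey : rho G H z u y y ≠ z u := by
    have hy : Low G y := hL y (SimpleGraph.Reachable.refl y)
    rw [rho_low hy, par_self]; simp
  have ev : rho G H z u y v ≠ z w := by
    rw [rho_low (hL v hr), hz]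
    cases z u <;> cases par H y v <;> simp
  refine ⟨f '' {i | i ≤ n}, rho G H z u y, (Set.finite_Iic n).image f, ?_, ?_,
    fun x hx => rho_inf hx, ⟨0, Nat.zero_le n, f1⟩, ⟨n, le_refl n, f2⟩, ey, ev⟩
  · rintro x ⟨i, hi, rfl⟩
    exact (f4 i hi).1
  refine fz_of_two ?_ ?_
  · rintro x ⟨i, hi, rfl⟩
    exact hLf i hi
  rintro x ⟨i, hi, rfl⟩
  have hi' : i ≤ n := hi
  -- the first neighbour
  have h1 : ∃ b, G.Adj (f i) b ∧ (Inf G b ∨ b ∈ f '' {i | i ≤ n}) ∧
      rho G H z u y b ≠ rho G H z u y (f i) ∧ ((i = 0 ∧ b = u) ∨ (0 < i ∧ b = f (i - 1))) := by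
    rcases Nat.eq_zero_or_pos i with h0 | h0
    · refine ⟨u, ?_, Or.inl hu, ?_, Or.inl ⟨h0, rfl⟩⟩
      · rw [h0, f1]; exact huy.symm
      · rw [h0, f1, rho_inf hu]; exact ey.symm
    · refine ⟨f (i - 1), ?_, Or.inr (hmem _ (by omega)), ?_, Or.inr ⟨h0, rfl⟩⟩
      · have := f3 (i - 1) (by omega)
        rw [Nat.sub_add_cancel h0] at this
        exact hHG this.symm
      · rw [rho_succ (b := f i) (hLf (i - 1) (by omega)) (hLf i hi')]
        · simp
        · rw [(f4 i hi').2, (f4 (i - 1) (by omega)).2]; omega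
  -- the second neighbour
  have h2 : ∃ b, G.Adj (f i) b ∧ (Inf G b ∨ b ∈ f '' {i | i ≤ n}) ∧
      rho G H z u y b ≠ rho G H z u y (f i) ∧ ((i = n ∧ b = w) ∨ (i < n ∧ b = f (i + 1))) := by
    rcases Nat.eq_or_lt_of_le hi' with h0 | h0
    · refine ⟨w, ?_, Or.inl hw, ?_, Or.inl ⟨h0, rfl⟩⟩
      · rw [h0, f2]; exact hwv.symm
      · rw [h0, f2, rho_inf hw]; exact ev.symm
    · refine ⟨f (i + 1), hHG (f3 i h0), Or.inr (hmem _ h0), ?_, Or.inr ⟨h0, rfl⟩⟩
      rw [rho_succ (b := f (i + 1)) (hLf i hi') (hLf (i + 1) h0)]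
      · simp
      · rw [(f4 i hi').2, (f4 (i + 1) h0).2]
  obtain ⟨b, b1, b2, b3, b4⟩ := h1
  obtain ⟨b', c1, c2, c3, c4⟩ := h2
  refine ⟨b, b', ?_, b1, c1, b2, c2, b3, c3⟩
  rintro rfl
  rcases b4 with ⟨h0, hb⟩ | ⟨h0, hb⟩
  · rcases c4 with ⟨h0', hb'⟩ | ⟨h0', hb'⟩
    · have hn0 : n = 0 := by omega
      rcases hne with h | h
      · exact h (hb.symm.trans hb')
      · exact h ((SimpleGraph.Reachable.dist_eq_zero_iff hr).1 hn0)
    · refine (hLf (i + 1) h0').not_inf ?_
      rw [← hb', hb]; exact hu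
  · rcases c4 with ⟨h0', hb'⟩ | ⟨h0', hb'⟩
    · refine (hLf (i - 1) (by omega)).not_inf ?_
      rw [← hb, hb']; exact hw
    · have e1 := (f4 (i - 1) (by omega)).2
      have e2 := (f4 (i + 1) h0').2
      rw [← hb] at e1
      rw [← hb'] at e2
      omega

/-- A ray. -/
lemma exists_ray {y : V} (hfin : ∀ x, H.Reachable y x → (H.neighborSet x).Finite)
    (hinf : {x | H.Reachable y x}.Infinite) :
    ∃ f : ℕ → V, f 0 = y ∧ ∀ i, H.Adj (f i) (f (i + 1)) ∧ H.Reachable y (f i) ∧
      H.dist y (f i) = i := by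
  let D : V → Set V := fun v => {x | H.Reachable v x ∧ H.dist y x = H.dist y v + H.dist v x}
  let S := {v : V // H.Reachable y v ∧ (D v).Infinite}
  have hstep : ∀ s : S, ∃ s' : S, H.Adj s.1 s'.1 ∧ H.dist y s'.1 = H.dist y s.1 + 1 := by
    rintro ⟨v, hv, hD⟩
    by_contra hcon
    push Not at hcon
    have hsub : D v ⊆ {v} ∪ ⋃ v' ∈ {v' | H.Adj v v' ∧ H.dist y v' = H.dist y v + 1}, D v' := by
      rintro x ⟨hx1, hx2⟩
      by_cases hxv : x = v
      · exact Or.inl hxv
      right
      obtain ⟨v', h1, h2, h3⟩ := parent hx1.symm (Ne.symm hxv)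
      have hyv' : H.Reachable y v' := hv.trans h1.symm.reachable
      have h4 := dist_succ hv h1.symm
      have h5 := SimpleGraph.Reachable.dist_triangle_left hyv' x
      rw [SimpleGraph.dist_comm (u := x), SimpleGraph.dist_comm (u := x)] at h3
      refine Set.mem_biUnion (show v' ∈ {v' | H.Adj v v' ∧ H.dist y v' = H.dist y v + 1} from
        ⟨h1.symm, by omega⟩) ⟨h2.symm, by omega⟩
    refine hD (Set.Finite.subset ((Set.finite_singleton v).union ?_) hsub)
    refine Set.Finite.biUnion ((hfin v hv).subset fun v' hv' => hv'.1) ?_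
    rintro v' ⟨h1, h2⟩
    by_contra hinf'
    exact hcon ⟨v', hv.trans h1.reachable, hinf'⟩ h1 h2
  choose N hN using hstep
  have hy : (D y).Infinite := by
    refine hinf.mono fun x hx => ⟨hx, ?_⟩
    rw [SimpleGraph.dist_self, zero_add]
  let s0 : S := ⟨y, SimpleGraph.Reachable.refl y, hy⟩
  let g : ℕ → S := fun n => Nat.rec s0 (fun _ s => N s) n
  have hg : ∀ n, H.dist y (g n).1 = n := by
    intro n
    induction n with
    | zero => exact SimpleGraph.dist_self
    | succ n ih =>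
      have := (hN (g n)).2
      rw [ih] at this
      exact this
  exact ⟨fun n => (g n).1, rfl, fun i => ⟨(hN (g i)).1, (g i).2.1, hg i⟩⟩

/-- A ray from a neighbour of a vertex of infinite degree. -/
lemma ray_piece (hHG : H ≤ G) {z : V → Bool} {u y : V}
    (hL : ∀ x, H.Reachable y x → Low G x) (hu : Inf G u) (huy : G.Adj u y)
    (hinf : {x | H.Reachable y x}.Infinite) :
    ∃ (A : Set V) (ρ : V → Bool), (∀ x ∈ A, H.Reachable y x) ∧ Fz G A ρ ∧
      (∀ x, Inf G x → ρ x = z x) ∧ y ∈ A ∧ ρ y ≠ z u := by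
  obtain ⟨f, f1, f2⟩ := exists_ray (y := y) (H := H) (fun x hx =>
    (Set.finite_of_encard_le_coe (hL x hx)).subset fun b hb => hHG hb) hinf
  have hLf : ∀ i, Low G (f i) := fun i => hL _ (f2 i).2.1
  have ey : rho G H z u y y ≠ z u := by
    have hy : Low G y := hL y (SimpleGraph.Reachable.refl y)
    rw [rho_low hy, par_self]; simp
  refine ⟨Set.range f, rho G H z u y, ?_, ?_, fun x hx => rho_inf hx, ⟨0, f1⟩, ey⟩
  · rintro x ⟨i, rfl⟩
    exact (f2 i).2.1
  refine fz_of_two ?_ ?_
  · rintro x ⟨i, rfl⟩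
    exact hLf i
  rintro x ⟨i, rfl⟩
  have h1 : ∃ b, G.Adj (f i) b ∧ (Inf G b ∨ b ∈ Set.range f) ∧
      rho G H z u y b ≠ rho G H z u y (f i) ∧ ((i = 0 ∧ b = u) ∨ (0 < i ∧ b = f (i - 1))) := by
    rcases Nat.eq_zero_or_pos i with h0 | h0
    · refine ⟨u, ?_, Or.inl hu, ?_, Or.inl ⟨h0, rfl⟩⟩
      · rw [h0, f1]; exact huy.symm
      · rw [h0, f1, rho_inf hu]; exact ey.symm
    · refine ⟨f (i - 1), ?_, Or.inr ⟨_, rfl⟩, ?_, Or.inr ⟨h0, rfl⟩⟩
      · have := (f2 (i - 1)).1
        rw [Nat.sub_add_cancel h0] at this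
        exact hHG this.symm
      · rw [rho_succ (b := f i) (hLf (i - 1)) (hLf i)]
        · simp
        · rw [(f2 i).2.2, (f2 (i - 1)).2.2]; omega
  obtain ⟨b, b1, b2, b3, b4⟩ := h1
  refine ⟨b, f (i + 1), ?_, b1, hHG (f2 i).1, b2, Or.inr ⟨_, rfl⟩, b3, ?_⟩
  · rintro rfl
    rcases b4 with ⟨h0, hb⟩ | ⟨h0, hb⟩
    · refine (hLf (i + 1)).not_inf ?_
      rw [hb]; exact hu
    · have e1 := (f2 (i - 1)).2.2
      have e2 := (f2 (i + 1)).2.2
      rw [← hb] at e1
      omega
  · rw [rho_succ (b := f (i + 1)) (hLf i) (hLf (i + 1))]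
    · simp
    · rw [(f2 i).2.2, (f2 (i + 1)).2.2]

/-- A path of even length between two neighbours of `u`. -/
lemma even_piece (hHG : H ≤ G) {z : V → Bool} {u b : V} {X : Set V}
    (hL : ∀ x, H.Reachable b x → Low G x) (hu : Inf G u) (hX : X.Infinite)
    (hX1 : ∀ y ∈ X, G.Adj u y ∧ H.Reachable b y) :
    ∃ (A : Set V) (ρ : V → Bool), A.Finite ∧ (∀ x ∈ A, H.Reachable b x) ∧ Fz G A ρ ∧
      (∀ x, Inf G x → ρ x = z x) ∧ ∃ y ∈ A, G.Adj u y ∧ ρ y ≠ z u := by
  have key : ∃ c : Bool, {y | y ∈ X ∧ par H b y = c}.Infinite := by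
    by_contra hcon
    push Not at hcon
    refine hX (((hcon true).union (hcon false)).subset fun y hy => ?_)
    cases h : par H b y
    · exact Or.inr ⟨hy, h⟩
    · exact Or.inl ⟨hy, h⟩
  obtain ⟨c, hc⟩ := key
  obtain ⟨y, hy⟩ := hc.nonempty
  obtain ⟨v, hv, hvy⟩ := (hc.sdiff (Set.finite_singleton y)).nonempty
  have r1 := bp_reach _ y (hX1 y hy.1).2 rfl
  have r2 := bp_reach _ v (hX1 v hv.1).2 rfl
  have r3 : (bp H b).Reachable y v := r1.symm.trans r2
  have hyb : H.Reachable b y := (hX1 y hy.1).2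
  have hsub : ∀ x, (bp H b).Reachable y x → H.Reachable b x := fun x hx =>
    hyb.trans (hx.mono (bp_le b))
  have hcol := par_of_col (H := bp H b) (col := par H b) (fun a b h => h.2) _ v r3 rfl
  rw [hy.2, hv.2] at hcol
  obtain ⟨A, ρ, h1, h2, h3, h4, h5, h6, h7, h8⟩ := path_piece (H := bp H b) (G := G) (z := z)
    (u := u) (w := u) (y := y) (v := v) ((bp_le b).trans hHG) (fun x hx => hL x (hsub x hx)) hu hu
    (hX1 y hy.1).1 (hX1 v hv.1).1 r3 (by
      have : par (bp H b) y v = false := by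
        revert hcol
        cases c <;> cases par (bp H b) y v <;> simp
      rw [this]; simp) (Or.inr fun h => hvy h.symm)
  exact ⟨A, ρ, h1, fun x hx => hsub x (h2 x hx), h3, h4, y, h5, (hX1 y hy.1).1, h7⟩

end UnfD
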