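import Pool.Agent.Work.MP_1aab6d_deg4_helper61.Geo

/-!
# Components
-/

set_option autoImplicit false

namespace UnfD

open Classical UnfT

variable {V : Type*} (G : SimpleGraph V)

/-- For `x` of degree at most four: the component of `x` in the subgraph of `G` induced by the
vertices of degree at most four. -/
def lc (x : V) : Set V := {a | Relation.ReflTransGen (fun p q => G.Adj p q ∧ Low G q) x a}

/-- The edges of `G` with both ends in `K`. -/
def lg (K : Set V) : SimpleGraph V where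
  Adj a b := G.Adj a b ∧ a ∈ K ∧ b ∈ K
  symm := ⟨fun _ _ h => ⟨h.1.symm, h.2.2, h.2.1⟩⟩
  loopless := ⟨fun _ h => G.loopless.irrefl _ h.1⟩

variable {G}

lemma lg_le (K : Set V) : lg G K ≤ G := fun _ _ h => h.1

lemma lg_reach_mem {K : Set V} {y x : V} (hy : y ∈ K) (h : (lg G K).Reachable y x) : x ∈ K := by
  obtain ⟨p⟩ := h
  induction p with
  | nil => exact hy
  | cons h _ ih => exact ih h.2.2

lemma mem_lc_self (x : V) : x ∈ lc G x := Relation.ReflTransGen.refl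

lemma lc_aux {x a : V} (hx : Low G x) (h : a ∈ lc G x) : Low G a ∧ x ∈ lc G a := by
  unfold lc at *
  rw [Set.mem_ofPred_eq] at *
  induction h with
  | refl => exact ⟨hx, Relation.ReflTransGen.refl⟩
  | tail hb hbc ih => exact ⟨hbc.2, Relation.ReflTransGen.head ⟨hbc.1.symm, ih.1⟩ ih.2⟩

lemma lc_low {x a : V} (hx : Low G x) (h : a ∈ lc G x) : Low G a := (lc_aux hx h).1

lemma lc_eq {x a : V} (hx : Low G x) (h : a ∈ lc G x) : lc G a = lc G x := by
  ext b
  exact ⟨fun h' => Relation.ReflTransGen.trans h h',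
    fun h' => Relation.ReflTransGen.trans (lc_aux hx h).2 h'⟩

lemma lc_sub_comp (x : V) : lc G x ⊆ comp G x := by
  intro a h
  have h' : Relation.ReflTransGen (fun p q => G.Adj p q ∧ Low G q) x a := h
  induction h' with
  | refl => exact mem_comp_self x
  | @tail b c hb hbc ih =>
    exact Relation.ReflTransGen.tail (ih hb) ⟨hbc.1, hbc.2.not_inf, Set.notMem_empty _⟩

lemma lc_reach {x a : V} (h : a ∈ lc G x) : (lg G (lc G x)).Reachable x a := by
  have h' : Relation.ReflTransGen (fun p q => G.Adj p q ∧ Low G q) x a := h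
  induction h' with
  | refl => exact SimpleGraph.Reachable.refl _
  | @tail b c hb hbc ih =>
    exact (ih hb).trans (SimpleGraph.Adj.reachable ⟨hbc.1, hb, h⟩)

/-- Deleting finitely many vertices leaves finitely many components. -/
lemma lc_cut {x0 : V} (hx0 : Low G x0) {D X : Set V} (hD : D.Finite) (hX : X.Infinite)
    (hXK : X ⊆ lc G x0 \ D) :
    ∃ b ∈ lc G x0 \ D, {y | y ∈ X ∧ (lg G (lc G x0 \ D)).Reachable b y}.Infinite := by
  let B : Set V := {b | b ∈ lc G x0 \ D ∧ (b = x0 ∨ ∃ d ∈ D ∩ lc G x0, G.Adj d b)}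
  have hB : B.Finite := by
    have : (⋃ d ∈ D ∩ lc G x0, G.neighborSet d).Finite :=
      (hD.subset Set.inter_subset_left).biUnion fun d hd =>
        Set.not_infinite.1 (lc_low hx0 hd.2).not_inf
    refine ((Set.finite_singleton x0).union this).subset ?_
    rintro b ⟨-, h | ⟨d, hd, hdb⟩⟩
    · exact Or.inl h
    · exact Or.inr (Set.mem_biUnion hd hdb)
  have key : ∀ a, a ∈ lc G x0 → a ∉ D → ∃ b ∈ B, (lg G (lc G x0 \ D)).Reachable b a := by
    intro a ha
    have h' : Relation.ReflTransGen (fun p q => G.Adj p q ∧ Low G q) x0 a := ha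
    induction h' with
    | refl =>
      intro haD
      exact ⟨x0, ⟨⟨ha, haD⟩, Or.inl rfl⟩, SimpleGraph.Reachable.refl _⟩
    | @tail b c hb hbc ih =>
      intro hcD
      by_cases hbD : b ∈ D
      · exact ⟨c, ⟨⟨ha, hcD⟩, Or.inr ⟨b, ⟨hbD, hb⟩, hbc.1⟩⟩, SimpleGraph.Reachable.refl _⟩
      · obtain ⟨e, he, hr⟩ := ih hb hbD
        exact ⟨e, he, hr.trans (SimpleGraph.Adj.reachable ⟨hbc.1, ⟨hb, hbD⟩, ⟨ha, hcD⟩⟩)⟩
  by_contra hcon
  push Not at hcon
  refine hX ((hB.biUnion fun b hb => hcon b hb.1).subset fun y hy => ?_)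
  obtain ⟨b, hb, hr⟩ := key y (hXK hy).1 (hXK hy).2
  exact Set.mem_biUnion hb ⟨hy, hr⟩

variable (G) in
/-- `A` is finite or contained in a component to which each vertex of infinite degree sends only
finitely many edges. -/
def Lt (A : Set V) : Prop :=
  A.Finite ∨ ∃ C : Set V, A ⊆ C ∧ (∀ w, Inf G w → (C ∩ G.neighborSet w).Finite) ∧
    ((∃ x, Low G x ∧ C = lc G x) ∨ ∃ x, ¬ Inf G x ∧ C = comp G x)

lemma Lt.f1 {A : Set V} (hA : Lt G A) {u y : V} (hy : Low G y) (hu : Inf G u)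
    (h : (lc G y ∩ G.neighborSet u).Infinite) : (A ∩ lc G y).Finite := by
  rcases hA with hA | ⟨C, hAC, hC, hx⟩
  · exact hA.subset Set.inter_subset_left
  have he : A ∩ lc G y = ∅ := by
    rw [Set.eq_empty_iff_forall_notMem]
    rintro a ⟨ha, hay⟩
    have haC := hAC ha
    rcases hx with ⟨x, hx, rfl⟩ | ⟨x, hx, rfl⟩
    · refine h ?_
      rw [← lc_eq hy hay, lc_eq hx haC]
      exact hC u hu
    · refine h ((hC u hu).subset (Set.inter_subset_inter_left _ ?_))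
      rw [← lc_eq hy hay, ← comp_eq hx haC]
      exact lc_sub_comp a
  rw [he]; exact Set.finite_empty

lemma Lt.f2 {A : Set V} (hA : Lt G A) (u : V) :
    {y | G.Adj u y ∧ ¬ Inf G y ∧ (comp G y ∩ G.neighborSet u).Finite ∧
      (A ∩ comp G y).Nonempty}.Finite := by
  have aux : ∀ x : V, {y | G.Adj u y ∧ (comp G y ∩ G.neighborSet u).Finite ∧
      comp G y = comp G x}.Finite := by
    intro x
    by_cases hx : (comp G x ∩ G.neighborSet u).Finite
    · refine hx.subset ?_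
      rintro y ⟨h1, h2, h3⟩
      exact ⟨by rw [← h3]; exact mem_comp_self y, h1⟩
    · refine Set.finite_empty.subset ?_
      rintro y ⟨h1, h2, h3⟩
      rw [h3] at h2
      exact hx h2
  rcases hA with hA | ⟨C, hAC, hC, hx⟩
  · refine (hA.biUnion fun a _ => aux a).subset ?_
    rintro y ⟨h1, h2, h3, a, ha, hay⟩
    exact Set.mem_biUnion ha ⟨h1, h3, (comp_eq h2 hay).symm⟩
  · obtain ⟨x, hx, hCx⟩ : ∃ x, ¬ Inf G x ∧ C ⊆ comp G x := by
      rcases hx with ⟨x, hx, rfl⟩ | ⟨x, hx, rfl⟩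
      · exact ⟨x, hx.not_inf, lc_sub_comp x⟩
      · exact ⟨x, hx, subset_rfl⟩
    refine (aux x).subset ?_
    rintro y ⟨h1, h2, h3, a, ha, hay⟩
    exact ⟨h1, h3, (comp_eq h2 hay).symm.trans (comp_eq hx (hCx (hAC ha)))⟩

lemma Lt.f3 {A : Set V} (hA : Lt G A) {u : V} (hu : Inf G u) :
    {y | G.Adj u y ∧ Low G y ∧ (lc G y ∩ G.neighborSet u).Finite ∧
      (A ∩ lc G y).Nonempty}.Finite := by
  have aux : ∀ x : V, {y | G.Adj u y ∧ (lc G y ∩ G.neighborSet u).Finite ∧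
      lc G y = lc G x}.Finite := by
    intro x
    by_cases hx : (lc G x ∩ G.neighborSet u).Finite
    · refine hx.subset ?_
      rintro y ⟨h1, h2, h3⟩
      exact ⟨by rw [← h3]; exact mem_lc_self y, h1⟩
    · refine Set.finite_empty.subset ?_
      rintro y ⟨h1, h2, h3⟩
      rw [h3] at h2
      exact hx h2
  rcases hA with hA | ⟨C, hAC, hC, hx⟩
  · refine (hA.biUnion fun a _ => aux a).subset ?_
    rintro y ⟨h1, h2, h3, a, ha, hay⟩
    exact Set.mem_biUnion ha ⟨h1, h3, (lc_eq h2 hay).symm⟩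
  · rcases hx with ⟨x, hx, rfl⟩ | ⟨x, hx, rfl⟩
    · refine (aux x).subset ?_
      rintro y ⟨h1, h2, h3, a, ha, hay⟩
      exact ⟨h1, h3, (lc_eq h2 hay).symm.trans (lc_eq hx (hAC ha))⟩
    · refine (hC u hu).subset ?_
      rintro y ⟨h1, h2, h3, a, ha, hay⟩
      refine ⟨?_, h1⟩
      rw [← comp_eq hx (hAC ha)]
      refine lc_sub_comp a ?_
      rw [lc_eq h2 hay]
      exact mem_lc_self y

/-- The construction of a sequence of disjoint pieces. -/
lemma dov {T : Type*} [Countable T] (Leg : Set V × (V → Bool) → Prop)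
    (Sv : T → Set V × (V → Bool) → Prop) {p0 : Set V × (V → Bool)} (h0 : Leg p0) (h0' : p0.1 = ∅)
    (h : ∀ F : Set (Set V × (V → Bool)), F.Finite → (∀ p ∈ F, Leg p) → ∀ t, ∃ p, Leg p ∧ Sv t p ∧
      ∀ q ∈ F, Disjoint p.1 q.1) :
    ∃ Q : ℕ → Set V × (V → Bool), (∀ n, Leg (Q n)) ∧
      (∀ m n, m < n → Disjoint (Q n).1 (Q m).1) ∧ ∀ t, {n | Sv t (Q n)}.Infinite := by
  rcases isEmpty_or_nonempty T with hT | hT
  · refine ⟨fun _ => p0, fun _ => h0, fun m n _ => ?_, fun t => (hT.false t).elim⟩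
    rw [h0']; exact Set.disjoint_empty _
  obtain ⟨g, hg⟩ := exists_surjective_nat T
  have hst : ∀ (F : Set (Set V × (V → Bool))) (t : T), ∃ p, F.Finite → (∀ p ∈ F, Leg p) →
      Leg p ∧ Sv t p ∧ ∀ q ∈ F, Disjoint p.1 q.1 := by
    intro F t
    by_cases hF : F.Finite ∧ ∀ p ∈ F, Leg p
    · obtain ⟨p, hp⟩ := h F hF.1 hF.2 t
      exact ⟨p, fun _ _ => hp⟩
    · exact ⟨p0, fun h1 h2 => absurd ⟨h1, h2⟩ hF⟩
  choose N hN using hst
  let tk : ℕ → T := fun n => g (Nat.unpair n).1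
  let σ : ℕ → Set (Set V × (V → Bool)) := fun n => Nat.rec ∅ (fun n s => insert (N s (tk n)) s) n
  have hσ : ∀ n, (σ n).Finite ∧ ∀ p ∈ σ n, Leg p := by
    intro n
    induction n with
    | zero => exact ⟨Set.finite_empty, fun p hp => absurd hp (Set.notMem_empty _)⟩
    | succ n ih =>
      refine ⟨ih.1.insert _, ?_⟩
      rintro p (rfl | hp)
      · exact (hN (σ n) (tk n) ih.1 ih.2).1
      · exact ih.2 p hp
  have hmono : ∀ n m, n ≤ m → σ n ⊆ σ m := by
    intro n m h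
    induction m, h using Nat.le_induction with
    | base => exact subset_rfl
    | succ m _ ih => exact ih.trans (Set.subset_insert _ _)
  have hQ := fun n => hN (σ n) (tk n) (hσ n).1 (hσ n).2
  refine ⟨fun n => N (σ n) (tk n), fun n => (hQ n).1, fun m n hmn => ?_, fun t => ?_⟩
  · exact (hQ n).2.2 _ (hmono (m + 1) n hmn (Set.mem_insert _ _))
  · obtain ⟨i, rfl⟩ := hg t
    have hinj : Function.Injective (fun j : ℕ => Nat.pair i j) := fun j k hjk => by
      have := congrArg (fun n => (Nat.unpair n).2) hjk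
      simpa using this
    refine (Set.infinite_range_of_injective hinj).mono ?_
    rintro _ ⟨j, rfl⟩
    have := (hQ (Nat.pair i j)).2.1
    have e : tk (Nat.pair i j) = g i := by
      show g (Nat.unpair (Nat.pair i j)).1 = g i
      rw [Nat.unpair_pair]
    rw [← e]; exact this

/-- Disjoint pieces give an unfriendly partition. -/
theorem unfriendly_of_pieces [Countable V] {z : V → Bool}
    (h : ∀ u, Inf G u → {y | G.Adj u y ∧ Inf G y ∧ z y ≠ z u}.Infinite ∨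
      ∀ F : Set (Set V), F.Finite → (∀ A ∈ F, Lt G A) → ∃ (A : Set V) (ρ : V → Bool),
        Lt G A ∧ Fz G A ρ ∧ (∀ x, Inf G x → ρ x = z x) ∧ (∀ B ∈ F, Disjoint A B) ∧
        ∃ y ∈ A, G.Adj u y ∧ ρ y ≠ z u) :
    ∃ c : V → Bool, Unfriendly G c := by
  let T := {u : V // Inf G u ∧ ¬ {y | G.Adj u y ∧ Inf G y ∧ z y ≠ z u}.Infinite}
  obtain ⟨Q, hQ1, hQ2, hQ3⟩ := dov (T := T)
    (fun p => Lt G p.1 ∧ Fz G p.1 p.2 ∧ ∀ x, Inf G x → p.2 x = z x)
    (fun u p => ∃ y ∈ p.1, G.Adj u.1 y ∧ p.2 y ≠ z u.1) (p0 := (∅, z))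
    ⟨Or.inl Set.finite_empty, fun a ha => absurd ha (Set.notMem_empty _), fun _ _ => rfl⟩ rfl (by
    rintro F hF hFL ⟨u, hu, hn⟩
    obtain ⟨A, ρ, h1, h2, h3, h4, h5⟩ := ((h u hu).resolve_left hn) (Prod.fst '' F) (hF.image _)
      (by rintro _ ⟨p, hp, rfl⟩; exact (hFL p hp).1)
    exact ⟨(A, ρ), ⟨h1, h2, h3⟩, h5, fun q hq => h4 _ ⟨q, hq, rfl⟩⟩)
  have hdis : ∀ m n, m ≠ n → ∀ v, v ∈ (Q m).1 → v ∈ (Q n).1 → False := by
    intro m n hmn v h1 h2
    rcases Nat.lt_or_gt_of_ne hmn with h | h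
    · exact Set.disjoint_left.1 (hQ2 m n h) h2 h1
    · exact Set.disjoint_left.1 (hQ2 n m h) h1 h2
  let A : Set V := ⋃ n, (Q n).1
  let ρ : V → Bool := fun v => if h : ∃ n, v ∈ (Q n).1 then (Q h.choose).2 v else z v
  have hρ : ∀ n, ∀ v ∈ (Q n).1, ρ v = (Q n).2 v := by
    intro n v hv
    have h : ∃ n, v ∈ (Q n).1 := ⟨n, hv⟩
    have e : ρ v = (Q h.choose).2 v := dif_pos h
    rw [e]
    by_cases hn : h.choose = n
    · rw [hn]
    · exact (hdis _ _ hn v h.choose_spec hv).elim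
  have hρI : ∀ v, Inf G v → ρ v = z v := by
    intro v hv
    refine dif_neg ?_
    rintro ⟨n, hn⟩
    exact ((hQ1 n).2.1 v hn).1 hv
  refine unfriendly_of_fz (A := A) (ρ := ρ) ?_ ?_
  · intro a ha
    obtain ⟨n, hn⟩ := Set.mem_iUnion.1 ha
    obtain ⟨h1, h2⟩ := (hQ1 n).2.1 a hn
    refine ⟨h1, h2.trans (Nat.mul_le_mul_left 2 ?_)⟩
    refine Set.ncard_le_ncard ?_ ((Set.not_infinite.1 h1).subset fun w hw => hw.1)
    rintro b ⟨g1, g2, g3⟩
    rw [← hρ n a hn] at g3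
    rcases g2 with g2 | g2
    · rw [(hQ1 n).2.2 b g2, ← hρI b g2] at g3
      exact ⟨g1, Or.inl g2, g3⟩
    · rw [← hρ n b g2] at g3
      exact ⟨g1, Or.inr (Set.mem_iUnion.2 ⟨n, g2⟩), g3⟩
  · intro u hu
    by_cases hn : {y | G.Adj u y ∧ Inf G y ∧ z y ≠ z u}.Infinite
    · refine hn.mono ?_
      rintro y ⟨h1, h2, h3⟩
      exact ⟨h1, Or.inl h2, by rw [hρI y h2, hρI u hu]; exact h3⟩
    · have h3 := hQ3 ⟨u, hu, hn⟩
      choose y hy using fun n : {n | ∃ y ∈ (Q n).1, G.Adj u y ∧ (Q n).2 y ≠ z u} => n.2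
      have : Infinite {n | ∃ y ∈ (Q n).1, G.Adj u y ∧ (Q n).2 y ≠ z u} := h3.to_subtype
      have hinj : Function.Injective y := by
        intro m n hmn
        by_contra hne
        refine hdis m.1 n.1 (fun h => hne (Subtype.ext h)) (y m) (hy m).1 ?_
        rw [hmn]; exact (hy n).1
      refine (Set.infinite_range_of_injective hinj).mono ?_
      rintro _ ⟨n, rfl⟩
      obtain ⟨g1, g2, g3⟩ := hy n
      exact ⟨g2, Or.inr (Set.mem_iUnion.2 ⟨n.1, g1⟩), by rw [hρ n.1 _ g1, hρI u hu]; exact g3⟩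

end UnfD
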