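import Pool.Agent.Work.MP_1aab6d_tree_helper61.Main

/-!
# Signed multigraphs
-/

set_option autoImplicit false

namespace UnfD

open Classical UnfS

variable {V T : Type*}

/-- Incidence. -/
def Inc (a b : T → V) (u : V) (t : T) : Prop := a t = u ∨ b t = u

/-- The edge `t` is satisfied. -/
def Sat (a b : T → V) (σ : T → Bool) (z : V → Bool) (t : T) : Prop := z (b t) = xor (z (a t)) (σ t)

/-- Secured partial colourings. -/
def SSec (P : Set V) (a b : T → V) (σ : T → Bool) (E : Set T) (z0 : V → Bool) (S : Set V)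
    (τ : V → Bool) : Prop :=
  S ⊆ P ∧ ∀ z : V → Bool, (∀ v, v ∉ P → z v = z0 v) → (∀ v ∈ S, z v = τ v) →
    ∀ u ∈ S, {t | t ∈ E ∧ Inc a b u t ∧ Sat a b σ z t}.Infinite

lemma Sat.congr {a b : T → V} {σ : T → Bool} {z z' : V → Bool} {t : T} (h : Sat a b σ z t)
    (h1 : z' (a t) = z (a t)) (h2 : z' (b t) = z (b t)) : Sat a b σ z' t := by
  unfold Sat at *
  rw [h1, h2]; exact h

lemma sat_or {a b : T → V} {σ : T → Bool} {z : V → Bool} {t : T} {u : V} (hab : a t ≠ b t)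
    (hu : Inc a b u t) : Sat a b σ (up z u true) t ∨ Sat a b σ (up z u false) t := by
  unfold Sat
  rcases hu with rfl | rfl
  · rw [up_eq, up_eq, up_ne _ _ hab.symm, up_ne _ _ hab.symm]
    cases z (b t) <;> cases σ t <;> simp
  · rw [up_eq, up_eq, up_ne _ _ hab, up_ne _ _ hab]
    cases z (a t) <;> cases σ t <;> simp

section

variable {P : Set V} {a b : T → V} {σ : T → Bool} {E : Set T} {z0 : V → Bool}

theorem exists_SSec : ∃ S τ, SSec P a b σ E z0 S τ ∧
    ∀ S' τ', SSec P a b σ E z0 S' τ' → S ⊆ S' → (∀ v ∈ S, τ' v = τ v) → S' ⊆ S := by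
  let α := {p : Set V × (V → Bool) // SSec P a b σ E z0 p.1 p.2}
  let r : α → α → Prop := fun p q => p.1.1 ⊆ q.1.1 ∧ ∀ v ∈ p.1.1, q.1.2 v = p.1.2 v
  have hz : ∃ m : α, ∀ a, r m a → r a m := by
    refine exists_maximal_of_chains_bounded (r := r) ?_ ?_
    · intro C hC
      rcases C.eq_empty_or_nonempty with rfl | hCne
      · refine ⟨⟨(∅, fun _ => false), ?_, ?_⟩, by simp⟩
        · intro v hv; exact absurd hv (Set.notMem_empty _)
        · intro c _ _ v hv; exact absurd hv (Set.notMem_empty _)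
      set S : Set V := ⋃ p ∈ C, p.1.1 with hS
      let τ : V → Bool := fun v => if h : ∃ p ∈ C, v ∈ p.1.1 then h.choose.1.2 v else false
      have hτ : ∀ p ∈ C, ∀ v ∈ p.1.1, τ v = p.1.2 v := by
        intro p hp v hv
        have h : ∃ p ∈ C, v ∈ p.1.1 := ⟨p, hp, hv⟩
        have e : τ v = h.choose.1.2 v := dif_pos h
        rw [e]
        have h1 := h.choose_spec
        by_cases hpq : h.choose = p
        · rw [hpq]
        · rcases hC h1.1 hp hpq with h2 | h2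
          · exact (h2.2 v h1.2).symm
          · exact h2.2 v hv
      have hsub : ∀ p ∈ C, p.1.1 ⊆ S := fun p hp => Set.subset_biUnion_of_mem (u := fun p : α => p.1.1) hp
      have hmem : ∀ v ∈ S, ∃ p ∈ C, v ∈ p.1.1 := fun v hv => by simpa [hS] using hv
      refine ⟨⟨(S, τ), ?_, ?_⟩, fun p hp => ⟨hsub p hp, hτ p hp⟩⟩
      · intro v hv
        obtain ⟨p, _, hpv⟩ := hmem v hv
        exact p.2.1 hpv
      · intro z he0 he v hv
        obtain ⟨p, hp, hpv⟩ := hmem v hv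
        exact p.2.2 z he0 (fun w hw => (he w (hsub p hp hw)).trans (hτ p hp w hw)) v hpv
    · intro a b c hab hbc
      exact ⟨hab.1.trans hbc.1, fun v hv => (hbc.2 v (hab.1 hv)).trans (hab.2 v hv)⟩
  obtain ⟨m, hm⟩ := hz
  exact ⟨m.1.1, m.1.2, m.2, fun S' τ' h1 h2 h3 => (hm ⟨(S', τ'), h1⟩ ⟨h2, h3⟩).1⟩

/-- Nothing can be added to a maximal secured set. -/
lemma s_absorb {S : Set V} {τ : V → Bool} (h : SSec P a b σ E z0 S τ)
    (hM : ∀ S' τ', SSec P a b σ E z0 S' τ' → S ⊆ S' → (∀ v ∈ S, τ' v = τ v) → S' ⊆ S) {R : Set V}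
    (hRI : R ⊆ P) {ρ : V → Bool}
    (hR : ∀ z : V → Bool, (∀ v, v ∉ P → z v = z0 v) → (∀ v ∈ S, z v = τ v) →
      (∀ v ∈ R, v ∉ S → z v = ρ v) →
      ∀ u ∈ R, u ∉ S → {t | t ∈ E ∧ Inc a b u t ∧ Sat a b σ z t}.Infinite) : R ⊆ S := by
  let τ' : V → Bool := fun v => if v ∈ S then τ v else ρ v
  have t1 : ∀ v ∈ S, τ' v = τ v := fun v hv => if_pos hv
  have t2 : ∀ v, v ∉ S → τ' v = ρ v := fun v hv => if_neg hv
  refine (Set.subset_union_right).trans (hM (S ∪ R) τ' ⟨?_, ?_⟩ Set.subset_union_left t1)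
  · rintro v (hv | hv)
    · exact h.1 hv
    · exact hRI hv
  · intro z hz0 hz w hw
    have e1 : ∀ v ∈ S, z v = τ v := fun v hv => (hz v (Or.inl hv)).trans (t1 v hv)
    by_cases hwS : w ∈ S
    · exact h.2 z hz0 e1 w hwS
    · exact hR z hz0 e1 (fun v hv hvS => (hz v (Or.inr hv)).trans (t2 v hvS)) w
        (hw.resolve_left hwS) hwS

lemma inf_or {X : Set T} {p q : T → Prop} (hX : X.Infinite) (h : ∀ t ∈ X, p t ∨ q t) :
    {t | t ∈ X ∧ p t}.Infinite ∨ {t | t ∈ X ∧ q t}.Infinite := by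
  by_contra hcon
  push Not at hcon
  refine hX ((hcon.1.union hcon.2).subset fun t ht => ?_)
  rcases h t ht with h | h
  · exact Or.inl ⟨ht, h⟩
  · exact Or.inr ⟨ht, h⟩

/-- Finitely many edges to the decided vertices. -/
lemma s_fin1 {S : Set V} {τ : V → Bool} (h : SSec P a b σ E z0 S τ)
    (hM : ∀ S' τ', SSec P a b σ E z0 S' τ' → S ⊆ S' → (∀ v ∈ S, τ' v = τ v) → S' ⊆ S)
    (hab : ∀ t ∈ E, a t ≠ b t) {u : V} (hu : u ∈ P) (huS : u ∉ S) :
    {t | t ∈ E ∧ Inc a b u t ∧ ∃ w, w ≠ u ∧ Inc a b w t ∧ (w ∈ S ∨ w ∉ P)}.Finite := by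
  by_contra hinf
  let zc : V → Bool := fun v => if v ∈ S then τ v else z0 v
  obtain ⟨c, hc⟩ : ∃ c : Bool, {t | t ∈ {t | t ∈ E ∧ Inc a b u t ∧ ∃ w, w ≠ u ∧ Inc a b w t ∧
      (w ∈ S ∨ w ∉ P)} ∧ Sat a b σ (up zc u c) t}.Infinite := by
    rcases inf_or (p := fun t => Sat a b σ (up zc u true) t)
      (q := fun t => Sat a b σ (up zc u false) t) hinf
      (fun t ht => sat_or (hab t ht.1) ht.2.1) with h | h
    · exact ⟨true, h⟩
    · exact ⟨false, h⟩
  refine huS (s_absorb h hM (R := {u}) (ρ := fun _ => c) (Set.singleton_subset_iff.2 hu) ?_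
    (Set.mem_singleton u))
  rintro z hz0 hz1 hz2 w rfl hw
  refine hc.mono ?_
  rintro t ⟨⟨h1, h2, w', h3, h4, h5⟩, h6⟩
  have ew : z w = up zc w c w := by rw [up_eq]; exact hz2 w (Set.mem_singleton w) hw
  have ew' : z w' = up zc w c w' := by
    rw [up_ne _ _ h3]
    by_cases hS : w' ∈ S
    · rw [hz1 w' hS]; exact (if_pos hS).symm
    · rw [hz0 w' (h5.resolve_left hS)]; exact (if_neg hS).symm
  refine ⟨h1, h2, h6.congr ?_ ?_⟩
  · rcases h2 with e | e
    · rw [e]; exact ew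
    · rcases h4 with e' | e'
      · rw [e']; exact ew'
      · exact absurd (e'.symm.trans e) h3
  · rcases h2 with e | e
    · rcases h4 with e' | e'
      · exact absurd (e'.symm.trans e) h3
      · rw [e']; exact ew'
    · rw [e]; exact ew

/-- Finitely many edges to each undecided vertex. -/
lemma s_fin2 {S : Set V} {τ : V → Bool} (h : SSec P a b σ E z0 S τ)
    (hM : ∀ S' τ', SSec P a b σ E z0 S' τ' → S ⊆ S' → (∀ v ∈ S, τ' v = τ v) → S' ⊆ S)
    (hab : ∀ t ∈ E, a t ≠ b t) {u w : V} (hu : u ∈ P) (huS : u ∉ S) (hw : w ∈ P) (hwS : w ∉ S)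
    (huw : w ≠ u) : {t | t ∈ E ∧ Inc a b u t ∧ Inc a b w t}.Finite := by
  by_contra hinf
  let zc : V → Bool := fun _ => true
  obtain ⟨c, hc⟩ : ∃ c : Bool, {t | t ∈ {t | t ∈ E ∧ Inc a b u t ∧ Inc a b w t} ∧
      Sat a b σ (up zc u c) t}.Infinite := by
    rcases inf_or (p := fun t => Sat a b σ (up zc u true) t)
      (q := fun t => Sat a b σ (up zc u false) t) hinf
      (fun t ht => sat_or (hab t ht.1) ht.2.1) with h | h
    · exact ⟨true, h⟩
    · exact ⟨false, h⟩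
  refine huS (s_absorb h hM (R := {u, w}) (ρ := up zc u c) ?_ ?_ (Or.inl rfl))
  · rintro v (rfl | rfl)
    · exact hu
    · exact hw
  intro z hz0 hz1 hz2 v hv _
  refine hc.mono ?_
  rintro t ⟨⟨h1, h2, h3⟩, h6⟩
  have eu : z u = up zc u c u := hz2 u (Or.inl rfl) huS
  have ew : z w = up zc u c w := hz2 w (Or.inr rfl) hwS
  refine ⟨h1, ?_, h6.congr ?_ ?_⟩
  · rcases hv with rfl | hv
    · exact h2
    · rw [hv]; exact h3
  · rcases h2 with e | e
    · rw [e]; exact eu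
    · rcases h3 with e' | e'
      · rw [e']; exact ew
      · exact absurd (e'.symm.trans e) huw
  · rcases h2 with e | e
    · rcases h3 with e' | e'
      · exact absurd (e'.symm.trans e) huw
      · rw [e']; exact ew
    · rw [e]; exact eu

/-- The colouring of a signed multigraph. -/
theorem signed_select [Countable V] [Countable T] (hab : ∀ t ∈ E, a t ≠ b t)
    (hP : ∀ u ∈ P, {t | t ∈ E ∧ Inc a b u t}.Infinite) (z0 : V → Bool) :
    ∃ z : V → Bool, (∀ v, v ∉ P → z v = z0 v) ∧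
      ∀ u ∈ P, {t | t ∈ E ∧ Inc a b u t ∧ Sat a b σ z t}.Infinite := by
  obtain ⟨S, τ, hS, hM⟩ := exists_SSec (P := P) (a := a) (b := b) (σ := σ) (E := E) (z0 := z0)
  let R : Set V := {v | v ∈ P ∧ v ∉ S}
  obtain ⟨c, hc⟩ := fuse (T := R × Finset T) (fun s => s.1.Finite ∧ s.1 ⊆ R)
    (s0 := (∅, fun _ => false)) ⟨Set.finite_empty, Set.empty_subset _⟩
    (fun x s => s.1 ⊆ R ∧ ∃ t ∈ E, Inc a b x.1 t ∧ t ∉ x.2 ∧ a t ∈ s.1 ∧ b t ∈ s.1 ∧
      Sat a b σ s.2 t) (by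
    rintro ⟨D, z⟩ ⟨hD, hDR⟩ ⟨⟨u, hu⟩, Ψ⟩
    dsimp only at hD hDR
    have f1 := s_fin1 hS hM hab hu.1 hu.2
    have f2 : (⋃ w ∈ {w | w ∈ D ∧ w ≠ u}, {t | t ∈ E ∧ Inc a b u t ∧ Inc a b w t}).Finite :=
      (hD.subset fun w hw => hw.1).biUnion fun w hw =>
        s_fin2 hS hM hab hu.1 hu.2 (hDR hw.1).1 (hDR hw.1).2 hw.2
    obtain ⟨t, ⟨ht1, ht2⟩, ht3⟩ := ((hP u hu.1).sdiff ((f1.union f2).union Ψ.finite_toSet)).nonempty
    have ht4 : t ∉ Ψ := fun h => ht3 (Or.inr h)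
    obtain ⟨w, hw1, hw2⟩ : ∃ w, w ≠ u ∧ Inc a b w t := by
      rcases ht2 with e | e
      · exact ⟨b t, by rw [← e]; exact (hab t ht1).symm, Or.inr rfl⟩
      · exact ⟨a t, by rw [← e]; exact hab t ht1, Or.inl rfl⟩
    have hwR : w ∈ R := by
      by_contra hcon
      refine ht3 (Or.inl (Or.inl ⟨ht1, ht2, w, hw1, hw2, ?_⟩))
      by_cases hwP : w ∈ P
      · by_cases hwS : w ∈ S
        · exact Or.inl hwS
        · exact absurd ⟨hwP, hwS⟩ hcon
      · exact Or.inr hwP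
    have hwD : w ∉ D := fun h => ht3 (Or.inl (Or.inr (Set.mem_biUnion
      (show w ∈ {w | w ∈ D ∧ w ≠ u} from ⟨h, hw1⟩) ⟨ht1, ht2, hw2⟩)))
    obtain ⟨c, hc⟩ : ∃ c : Bool, Sat a b σ (up z w c) t := by
      rcases sat_or (σ := σ) (z := z) (hab t ht1) hw2 with h | h
      · exact ⟨true, h⟩
      · exact ⟨false, h⟩
    have hmem : ∀ v, Inc a b v t → v ∈ insert w (insert u D) := by
      rintro v (e | e)
      · rcases ht2 with e1 | e1
        · exact Or.inr (Or.inl (e.symm.trans e1))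
        · rcases hw2 with e2 | e2
          · exact Or.inl (e.symm.trans e2)
          · exact absurd (e2.symm.trans e1) hw1
      · rcases ht2 with e1 | e1
        · rcases hw2 with e2 | e2
          · exact absurd (e2.symm.trans e1) hw1
          · exact Or.inl (e.symm.trans e2)
        · exact Or.inr (Or.inl (e.symm.trans e1))
    have hsub : insert w (insert u D) ⊆ R := by
      rintro v (rfl | rfl | hv)
      · exact hwR
      · exact hu
      · exact hDR hv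
    refine ⟨(insert w (insert u D), up z w c), ⟨(hD.insert u).insert w, hsub⟩, ⟨?_, ?_⟩, hsub,
      t, ht1, ht2, ht4, hmem _ (Or.inl rfl), hmem _ (Or.inr rfl), hc⟩
    · exact fun v hv => Or.inr (Or.inr hv)
    · intro v hv
      exact up_ne _ _ fun e => hwD (by rw [← e]; exact hv))
  let z : V → Bool := fun v => if v ∈ S then τ v else if v ∈ P then c v else z0 v
  have zS : ∀ v ∈ S, z v = τ v := fun v hv => if_pos hv
  have zP : ∀ v, v ∉ P → z v = z0 v := fun v hv => by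
    have hvS : v ∉ S := fun h => hv (hS.1 h)
    show (if v ∈ S then τ v else if v ∈ P then c v else z0 v) = z0 v
    rw [if_neg hvS, if_neg hv]
  have zR : ∀ v ∈ R, z v = c v := fun v hv => by
    show (if v ∈ S then τ v else if v ∈ P then c v else z0 v) = c v
    rw [if_neg hv.2, if_pos hv.1]
  refine ⟨z, zP, fun u hu => ?_⟩
  by_cases huS : u ∈ S
  · exact hS.2 z zP zS u huS
  intro hfin
  obtain ⟨s, ⟨h0, t, h1, h2, h3, h4, h5, h6⟩, hs⟩ := hc (⟨u, hu, huS⟩, hfin.toFinset)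
  refine h3 (hfin.mem_toFinset.2 ⟨h1, h2, h6.congr ?_ ?_⟩)
  · rw [zR _ (h0 h4), hs _ h4]
  · rw [zR _ (h0 h5), hs _ h5]

end

end UnfD
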