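import Pool.Agent.Work.MP_1aab6d_deg4_helper61.Low
import Pool.Agent.Work.MP_1aab6d_deg4_helper61.Sg

/-!
# Vertices of degree at most four
-/

set_option autoImplicit false

namespace UnfD

open Classical UnfT UnfS

variable {V : Type*} (G : SimpleGraph V)

/-- The neighbour `y` of the vertex `u` of infinite degree has infinite degree, or has finite degree
and lies in a component of the graph induced by the vertices of finite degree which has no
neighbour of infinite degree other than `u` and contains finitely many neighbours of `u`, or has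
degree at most four and lies in a component of the graph induced by the vertices of degree at most
four which is infinite or has a neighbour of infinite degree other than `u`. -/
def Useful (u y : V) : Prop :=
  Inf G y ∨ (¬ Inf G y ∧ bd G y ⊆ {u} ∧ (comp G y ∩ G.neighborSet u).Finite) ∨
    (Low G y ∧ ((lc G y).Infinite ∨ ∃ w, w ≠ u ∧ Inf G w ∧ ∃ v ∈ lc G y, G.Adj w v))

/-- `w` can be linked to `u` by a path starting in `y` and ending in `v`. -/
def Lk (u y w v : V) : Prop :=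
  G.Adj u y ∧ Low G y ∧ (lc G y ∩ G.neighborSet u).Finite ∧ w ≠ u ∧ Inf G w ∧ v ∈ lc G y ∧
    G.Adj w v ∧ ((lc G y).Finite ∨ (lc G y ∩ G.neighborSet w).Infinite)

variable {G}

/-- Single petals. -/
lemma need1 {u : V} (hu : Inf G u) (z : V → Bool)
    (h : {y | G.Adj u y ∧ ¬ Inf G y ∧ bd G y ⊆ {u} ∧
      (comp G y ∩ G.neighborSet u).Finite}.Infinite) (F : Set (Set V)) (hF : F.Finite)
    (hFL : ∀ A ∈ F, Lt G A) : ∃ (A : Set V) (ρ : V → Bool),
      Lt G A ∧ Fz G A ρ ∧ (∀ x, Inf G x → ρ x = z x) ∧ (∀ B ∈ F, Disjoint A B) ∧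
      ∃ y ∈ A, G.Adj u y ∧ ρ y ≠ z u := by
  obtain ⟨y, ⟨h1, h2, h3, h4⟩, h5⟩ := (h.sdiff (hF.biUnion fun B hB => (hFL B hB).f2 u)).nonempty
  have hd : ∀ B ∈ F, Disjoint (comp G y) B := by
    intro B hB
    rw [Set.disjoint_left]
    intro a ha haB
    exact h5 (Set.mem_biUnion hB ⟨h1, h2, h4, a, haB, ha⟩)
  have hLt : Lt G (comp G y) := by
    refine Or.inr ⟨comp G y, subset_rfl, fun w hw => ?_, Or.inr ⟨y, h2, rfl⟩⟩
    by_cases hwu : w = u
    · rw [hwu]; exact h4
    · have : comp G y ∩ G.neighborSet w = ∅ := by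
        rw [Set.eq_empty_iff_forall_notMem]
        rintro a ⟨ha, haw⟩
        exact hwu (h3 (show w ∈ bd G y from ⟨hw, a, ha, haw.symm⟩))
      rw [this]; exact Set.finite_empty
  have hnI : ∀ a ∈ comp G y, ¬ Inf G a := fun a ha => comp_not_inf h2 ha
  obtain ⟨s, hs1, hs2⟩ := ext_stab (G := G) (comp G y)ᶜ (fun v hv h => hnI v h hv) z
  have hsI : ∀ x, Inf G x → s x = z x := fun x hx => hs1 x fun h => hnI x h hx
  have hsS : ∀ a ∈ comp G y, Stab G s a := fun a ha => hs2 a fun h => h ha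
  have hset : ∀ (s : V → Bool), ∀ a ∈ comp G y,
      {b | G.Adj a b ∧ (Inf G b ∨ b ∈ comp G y) ∧ s b ≠ s a} = {b | G.Adj a b ∧ s b ≠ s a} := by
    intro s a ha
    ext b
    refine ⟨fun h => ⟨h.1, h.2.2⟩, fun h => ⟨h.1, ?_, h.2⟩⟩
    rcases comp_adj ha h.1 with h | h
    · exact Or.inr h
    · exact Or.inl h.1
  by_cases hcase : ∃ y' ∈ comp G y, G.Adj u y' ∧ s y' ≠ z u
  · refine ⟨comp G y, s, hLt, fun a ha => ⟨hnI a ha, ?_⟩, hsI, hd, hcase⟩
    rw [hset s a ha]
    exact (stab_iff_deg (hnI a ha)).1 (hsS a ha)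
  · push Not at hcase
    let s' : V → Bool := fun v => if v ∈ comp G y then !(s v) else s v
    have e1 : ∀ v ∈ comp G y, s' v = !(s v) := fun v hv => if_pos hv
    have e2 : ∀ v, v ∉ comp G y → s' v = s v := fun v hv => if_neg hv
    refine ⟨comp G y, s', hLt, fun a ha => ⟨hnI a ha, ?_⟩, fun x hx => ?_, hd, y,
      mem_comp_self y, h1, ?_⟩
    · rw [hset s' a ha]
      refine ((stab_iff_deg (hnI a ha)).1 (hsS a ha)).trans (Nat.mul_le_mul_left 2 ?_)
      refine Set.ncard_le_ncard ?_ ((Set.not_infinite.1 (hnI a ha)).subset fun w hw => hw.1)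
      rintro b ⟨g1, g2⟩
      refine ⟨g1, ?_⟩
      rcases comp_adj ha g1 with h | h
      · rw [e1 b h, e1 a ha]
        intro h'; exact g2 (by simpa using h')
      · exfalso
        have hbu : b = u := h3 h
        rw [hbu] at g1 g2
        exact g2 (by rw [hsI u hu, hcase a ha g1.symm])
    · rw [e2 x fun h => hnI x h hx, hsI x hx]
    · rw [e1 y (mem_comp_self y), hcase y (mem_comp_self y) h1]
      simp

/-- Infinitely many neighbours in one component. -/
lemma need2 {u y : V} (hu : Inf G u) (z : V → Bool) (hy : Low G y)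
    (h : (lc G y ∩ G.neighborSet u).Infinite) (F : Set (Set V)) (hF : F.Finite)
    (hFL : ∀ A ∈ F, Lt G A) : ∃ (A : Set V) (ρ : V → Bool),
      Lt G A ∧ Fz G A ρ ∧ (∀ x, Inf G x → ρ x = z x) ∧ (∀ B ∈ F, Disjoint A B) ∧
      ∃ y ∈ A, G.Adj u y ∧ ρ y ≠ z u := by
  set D : Set V := ⋃ B ∈ F, B ∩ lc G y with hD
  have hDf : D.Finite := hF.biUnion fun B hB => (hFL B hB).f1 hy hu h
  have hX : ((lc G y ∩ G.neighborSet u) \ D).Infinite := h.sdiff hDf
  obtain ⟨b, hb, hbX⟩ := lc_cut hy hDf hX (fun x hx => ⟨hx.1.1, hx.2⟩)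
  obtain ⟨A, ρ, h1, h2, h3, h4, h5⟩ := even_piece (H := lg G (lc G y \ D)) (z := z) (lg_le _)
    (fun x hx => lc_low hy (lg_reach_mem hb hx).1) hu hbX (fun y hy => ⟨hy.1.1.2, hy.2⟩)
  refine ⟨A, ρ, Or.inl h1, h3, h4, fun B hB => ?_, h5⟩
  rw [Set.disjoint_left]
  intro a ha haB
  have := lg_reach_mem hb (h2 a ha)
  exact this.2 (Set.mem_biUnion hB ⟨haB, this.1⟩)

/-- Infinite components with finitely many edges to each vertex of infinite degree. -/
lemma need3 {u : V} (hu : Inf G u) (z : V → Bool)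
    (h : {y | G.Adj u y ∧ Low G y ∧ (lc G y).Infinite ∧
      ∀ w, Inf G w → (lc G y ∩ G.neighborSet w).Finite}.Infinite) (F : Set (Set V))
    (hF : F.Finite) (hFL : ∀ A ∈ F, Lt G A) : ∃ (A : Set V) (ρ : V → Bool),
      Lt G A ∧ Fz G A ρ ∧ (∀ x, Inf G x → ρ x = z x) ∧ (∀ B ∈ F, Disjoint A B) ∧
      ∃ y ∈ A, G.Adj u y ∧ ρ y ≠ z u := by
  obtain ⟨y, ⟨h1, h2, h3, h4⟩, h5⟩ := (h.sdiff (hF.biUnion fun B hB => (hFL B hB).f3 hu)).nonempty
  have hsub : ∀ x, (lg G (lc G y)).Reachable y x → x ∈ lc G y := fun x hx =>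
    lg_reach_mem (mem_lc_self y) hx
  obtain ⟨A, ρ, g1, g2, g3, g4, g5⟩ := ray_piece (H := lg G (lc G y)) (z := z) (lg_le _)
    (fun x hx => lc_low h2 (hsub x hx)) hu h1 (h3.mono fun x hx => lc_reach hx)
  refine ⟨A, ρ, Or.inr ⟨lc G y, fun x hx => hsub x (g1 x hx), h4, Or.inl ⟨y, h2, rfl⟩⟩, g2, g3,
    fun B hB => ?_, y, g4, h1, g5⟩
  rw [Set.disjoint_left]
  intro a ha haB
  exact h5 (Set.mem_biUnion hB ⟨h1, h2, h4 u hu, a, haB, hsub a (g1 a ha)⟩)

/-- **Main theorem.** -/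
theorem unfriendly_of_useful [Countable V] (G : SimpleGraph V)
    (h : ∀ u, Inf G u → {y | G.Adj u y ∧ Useful G u y}.Infinite) :
    ∃ c : V → Bool, Unfriendly G c := by
  let P : Set V := {u | Inf G u ∧
    ¬ {y | G.Adj u y ∧ ¬ Inf G y ∧ bd G y ⊆ {u} ∧ (comp G y ∩ G.neighborSet u).Finite}.Infinite ∧
    ¬ (∃ y, Low G y ∧ (lc G y ∩ G.neighborSet u).Infinite) ∧
    ¬ {y | G.Adj u y ∧ Low G y ∧ (lc G y).Infinite ∧
      ∀ w, Inf G w → (lc G y ∩ G.neighborSet w).Finite}.Infinite}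
  let LE : V × V → Prop := fun t => ∃ x : V × V, Lk G t.1 t.2 x.1 x.2
  let E : Set (V × V) := {t | t.1 ∈ P ∧ G.Adj t.1 t.2 ∧ (Inf G t.2 ∨ LE t)}
  let b : V × V → V := fun t => if h : LE t then h.choose.1 else t.2
  let vv : V × V → V := fun t => if h : LE t then h.choose.2 else t.2
  let σ : V × V → Bool := fun t => if LE t then par (lg G (lc G t.2)) t.2 (vv t) else true
  have hLE : ∀ t, LE t → Lk G t.1 t.2 (b t) (vv t) := by
    intro t ht
    have e1 : b t = ht.choose.1 := dif_pos ht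
    have e2 : vv t = ht.choose.2 := dif_pos ht
    rw [e1, e2]; exact ht.choose_spec
  have hbI : ∀ t, Inf G t.2 → b t = t.2 ∧ σ t = true := by
    intro t ht
    have : ¬ LE t := fun ⟨x, hx⟩ => hx.2.1.not_inf ht
    exact ⟨dif_neg this, if_neg this⟩
  have hσ : ∀ t, LE t → σ t = par (lg G (lc G t.2)) t.2 (vv t) := fun t ht => if_pos ht
  have hPuse : ∀ u ∈ P, {y | G.Adj u y ∧ (Inf G y ∨ LE (u, y))}.Infinite := by
    rintro u ⟨hu, n1, n2, n3⟩ hfin
    refine h u hu (((hfin.union (Set.not_infinite.1 n1)).union (Set.not_infinite.1 n3)).subset ?_)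
    rintro y ⟨hy1, hy2⟩
    have hlcu : Low G y → (lc G y ∩ G.neighborSet u).Finite := fun hy => by
      by_contra hinf
      exact n2 ⟨y, hy, hinf⟩
    rcases hy2 with hy | ⟨g1, g2, g3⟩ | ⟨g1, g2⟩
    · exact Or.inl (Or.inl ⟨hy1, Or.inl hy⟩)
    · exact Or.inl (Or.inr ⟨hy1, g1, g2, g3⟩)
    · by_cases hinf : (lc G y).Infinite
      · by_cases hw : ∀ w, Inf G w → (lc G y ∩ G.neighborSet w).Finite
        · exact Or.inr ⟨hy1, g1, hinf, hw⟩
        · push Not at hw
          obtain ⟨w, hw1, hw2⟩ := hw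
          obtain ⟨v, hv1, hv2⟩ := hw2.nonempty
          have hwu : w ≠ u := by
            rintro rfl
            exact hw2 (hlcu g1)
          exact Or.inl (Or.inl ⟨hy1, Or.inr ⟨(w, v), hy1, g1, hlcu g1, hwu, hw1, hv1, hv2,
            Or.inr hw2⟩⟩)
      · obtain ⟨w, hw1, hw2, v, hv1, hv2⟩ := g2.resolve_left hinf
        exact Or.inl (Or.inl ⟨hy1, Or.inr ⟨(w, v), hy1, g1, hlcu g1, hw1, hw2, hv1, hv2,
          Or.inl (Set.not_infinite.1 hinf)⟩⟩)
  obtain ⟨z, -, hz⟩ := signed_select (P := P) (a := Prod.fst) (b := b) (σ := σ) (E := E)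
    (by
      rintro t ⟨h1, h2, h3 | h3⟩
      · rw [(hbI t h3).1]; exact h2.ne
      · exact (hLE t h3).2.2.2.1.symm)
    (by
      intro u hu
      have hinj : Set.InjOn (fun y : V => (u, y)) {y | G.Adj u y ∧ (Inf G y ∨ LE (u, y))} :=
        fun x _ y _ h => congrArg Prod.snd h
      refine ((hPuse u hu).image hinj).mono ?_
      rintro _ ⟨y, hy, rfl⟩
      exact ⟨⟨hu, hy.1, hy.2⟩, Or.inl rfl⟩)
    (fun _ => false)
  refine unfriendly_of_pieces (z := z) fun u hu => ?_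
  by_cases c1 : {y | G.Adj u y ∧ ¬ Inf G y ∧ bd G y ⊆ {u} ∧
      (comp G y ∩ G.neighborSet u).Finite}.Infinite
  · exact Or.inr (need1 hu z c1)
  by_cases c2 : ∃ y, Low G y ∧ (lc G y ∩ G.neighborSet u).Infinite
  · obtain ⟨y, hy1, hy2⟩ := c2
    exact Or.inr (need2 hu z hy1 hy2)
  by_cases c3 : {y | G.Adj u y ∧ Low G y ∧ (lc G y).Infinite ∧
      ∀ w, Inf G w → (lc G y ∩ G.neighborSet w).Finite}.Infinite
  · exact Or.inr (need3 hu z c3)
  have huP : u ∈ P := ⟨hu, c1, c2, c3⟩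
  rcases inf_or (p := fun t => Inf G t.2) (q := fun t => LE t) (hz u huP)
    (fun t ht => ht.1.2.2) with hc | hc
  · left
    intro hfin
    refine hc ((((Set.finite_singleton u).prod hfin).union
      (hfin.prod (Set.finite_singleton u))).subset ?_)
    rintro ⟨t1, t2⟩ ⟨⟨⟨h1, h2, h3⟩, h4, h5⟩, h6⟩
    have e := hbI _ h6
    unfold Sat at h5
    rw [e.1, e.2] at h5
    dsimp only at h1 h2 h4 h5 h6
    have hne : z t2 ≠ z t1 := by
      rw [h5]; cases z t1 <;> simp
    rcases h4 with h4 | h4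
    · left
      dsimp only at h4
      subst h4
      exact ⟨rfl, h2, h6, hne⟩
    · right
      rw [e.1] at h4
      dsimp only at h4
      subst h4
      exact ⟨⟨h2.symm, h1.1, hne.symm⟩, rfl⟩
  · right
    intro F hF hFL
    have hbad : {t : V × V | (t.1 = u ∨ b t = u) ∧ LE t ∧ ∃ B ∈ F, (B ∩ lc G t.2).Nonempty}.Finite := by
      have f : ∀ B ∈ F, {y | G.Adj u y ∧ Low G y ∧ (lc G y ∩ G.neighborSet u).Finite ∧
          (B ∩ lc G y).Nonempty}.Finite := fun B hB => (hFL B hB).f3 hu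
      have f' := hF.biUnion f
      have f'' : (⋃ v ∈ {v | v ∈ (⋃ B ∈ F, {y | G.Adj u y ∧ Low G y ∧
          (lc G y ∩ G.neighborSet u).Finite ∧ (B ∩ lc G y).Nonempty}) ∧ (lc G v).Finite},
          ⋃ y ∈ lc G v, (G.neighborSet y ×ˢ {y} : Set (V × V))).Finite := by
        refine Set.Finite.biUnion (f'.subset fun v hv => hv.1) ?_
        rintro v ⟨hv1, hv2⟩
        obtain ⟨B, hB, hv3⟩ := Set.mem_iUnion₂.1 hv1
        refine hv2.biUnion fun y hy => ?_
        exact (Set.not_infinite.1 (lc_low hv3.2.1 hy).not_inf).prod (Set.finite_singleton y)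
      refine (((Set.finite_singleton u).prod f').union f'').subset ?_
      rintro ⟨t1, t2⟩ ⟨h1, h2, B, hB, h3⟩
      obtain ⟨g1, g2, g3, g4, g5, g6, g7, g8⟩ := hLE _ h2
      dsimp only at h1 h3 g1 g2 g3 g4 g6 g8
      rcases h1 with h1 | h1
      · subst h1
        exact Or.inl ⟨rfl, Set.mem_biUnion hB ⟨g1, g2, g3, h3⟩⟩
      · right
        rw [h1] at g5 g7 g8
        have hlf : (lc G t2).Finite := by
          rcases g8 with g8 | g8
          · exact g8
          · exact absurd ⟨t2, g2, g8⟩ c2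
        have he := lc_eq g2 g6
        refine Set.mem_biUnion (x := vv (t1, t2)) ⟨Set.mem_biUnion hB ⟨g7, lc_low g2 g6, ?_, ?_⟩, ?_⟩
          (Set.mem_biUnion (x := t2) ?_ ⟨g1.symm, rfl⟩)
        · rw [he]; exact hlf.subset Set.inter_subset_left
        · rw [he]; exact h3
        · rw [he]; exact hlf
        · rw [he]; exact mem_lc_self t2
    obtain ⟨t, ⟨⟨h1, h2, h3⟩, h4⟩, h5⟩ := (hc.sdiff hbad).nonempty
    have hdis : ∀ B ∈ F, ∀ x ∈ lc G t.2, x ∉ B := by
      intro B hB x hx hxB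
      exact h5 ⟨h2, h4, B, hB, x, hxB, hx⟩
    obtain ⟨g1, g2, g3, g4, g5, g6, g7, g8⟩ := hLE _ h4
    have hsub : ∀ x, (lg G (lc G t.2)).Reachable t.2 x → x ∈ lc G t.2 := fun x hx =>
      lg_reach_mem (mem_lc_self _) hx
    obtain ⟨A, ρ, k1, k2, k3, k4, k5, k6, k7, k8⟩ := path_piece (H := lg G (lc G t.2)) (z := z)
      (u := t.1) (w := b t) (y := t.2) (v := vv t) (lg_le _) (fun x hx => lc_low g2 (hsub x hx))
      h1.1.1 g5 g1 g7 (lc_reach g6) (by
        have := h3
        unfold Sat at this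
        rw [hσ t h4] at this
        exact this) (Or.inl g4.symm)
    refine ⟨A, ρ, Or.inl k1, k3, k4, fun B hB => ?_, ?_⟩
    · rw [Set.disjoint_left]
      intro x hx hxB
      exact hdis B hB x (hsub x (k2 x hx)) hxB
    · rcases h2 with h2 | h2
      · have h2' : t.1 = u := h2
        rw [← h2']
        exact ⟨t.2, k5, g1, k7⟩
      · rw [← h2]
        exact ⟨vv t, k6, g7, k8⟩

/-- Graphs all of whose vertices have degree at most four or infinite degree. -/
theorem unfriendly_of_low [Countable V] (G : SimpleGraph V) (h : ∀ v, Low G v ∨ Inf G v) :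
    ∃ c : V → Bool, Unfriendly G c := by
  refine unfriendly_of_useful G fun u hu => ?_
  have hu' : (G.neighborSet u).Infinite := hu
  refine hu'.mono fun y hy => ⟨hy, ?_⟩
  rcases h y with hy' | hy'
  · by_cases h1 : (lc G y).Infinite
    · exact Or.inr (Or.inr ⟨hy', Or.inl h1⟩)
    · by_cases h2 : ∃ w, w ≠ u ∧ Inf G w ∧ ∃ v ∈ lc G y, G.Adj w v
      · exact Or.inr (Or.inr ⟨hy', Or.inr h2⟩)
      · have hsub : comp G y ⊆ lc G y := by
          intro a ha
          have ha' : Reach G ∅ y a := ha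
          unfold Reach at ha'
          induction ha' with
          | refl => exact mem_lc_self y
          | @tail b c hb hbc ih =>
            exact Relation.ReflTransGen.tail (ih hb) ⟨hbc.1, (h c).resolve_right hbc.2.1⟩
        refine Or.inr (Or.inl ⟨hy'.not_inf, ?_, ?_⟩)
        · rintro w ⟨hw, a, ha, haw⟩
          by_contra hwu
          exact h2 ⟨w, hwu, hw, a, hsub ha, haw.symm⟩
        · exact ((Set.not_infinite.1 h1).subset hsub).subset Set.inter_subset_left
  · exact Or.inl hy'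

end UnfD
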